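import Pool.Agent.Q116.FF.G5

/-!
A counting lemma for matchings: odd components of graphs of girth at least five without bridges, with
respect to the vertices of odd degree. The scheme follows `Pool.Agent.Q164.MN.Count` (there all
degrees and all cuts are at least three).
-/

set_option autoImplicit false

namespace Q116.MM

open Finset Q116.FF

variable {V : Type} [DecidableEq V]

/-- the number of edges between `O` and `T \ O` -/
noncomputable def cutn (H : SimpleGraph V) (T O : Finset V) : ℕ := ∑ x ∈ O, (nb H (T \ O) x).card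

/-- the conditions on the graph -/
structure Gd (H : SimpleGraph V) (T : Finset V) : Prop where
  mem : ∀ v w, H.Adj v w → w ∈ T
  g5 : Girth5 H
  cut : ∀ Y ⊆ T, cutn H T Y ≠ 1

/-- a family of disjoint odd sets which are joined only to `A` -/
structure Fam (H : SimpleGraph V) (T A : Finset V) (F : Finset (Finset V)) : Prop where
  sub : A ⊆ T
  odd : ∀ O ∈ F, Odd O.card
  disj : ∀ O ∈ F, ∀ O' ∈ F, O ≠ O' → Disjoint O O'
  subT : ∀ O ∈ F, O ⊆ T \ A
  cl : ∀ O ∈ F, ∀ x ∈ O, ∀ y ∈ T, H.Adj x y → y ∈ O ∨ y ∈ A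

variable {H : SimpleGraph V} {T A : Finset V} {F : Finset (Finset V)}

theorem Fam.card_sum (h : Fam H T A F) :
    (F.biUnion id).card = ∑ O ∈ F, O.card := by
  rw [card_biUnion]
  · rfl
  · intro O hO O' hO' hne
    exact h.disj O hO O' hO' hne

theorem Fam.union_sub (h : Fam H T A F) : F.biUnion id ⊆ T \ A := by
  intro x hx
  obtain ⟨O, hO, hx⟩ := mem_biUnion.1 hx
  exact h.subT O hO hx

theorem Fam.sum_parity (h : Fam H T A F) : (∑ O ∈ F, O.card) % 2 = F.card % 2 := by
  have : ∑ O ∈ F, O.card % 2 = F.card := by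
    rw [sum_congr rfl (fun O hO => Nat.odd_iff.1 (h.odd O hO)), sum_const, smul_eq_mul, mul_one]
  rw [sum_nat_mod, this]

theorem Fam.mono (h : Fam H T A F) {F' : Finset (Finset V)} (hF' : F' ⊆ F) : Fam H T A F' :=
  ⟨h.sub, fun O hO => h.odd O (hF' hO), fun O hO O' hO' => h.disj O (hF' hO) O' (hF' hO'),
    fun O hO => h.subT O (hF' hO), fun O hO => h.cl O (hF' hO)⟩

/-- parity: the family can be enlarged -/
theorem Fam.extend (h : Fam H T A F) (hc : F.card = A.card + (T.card - 17)) (hn : 17 ≤ T.card) :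
    ∃ F', Fam H T A F' ∧ F'.card = A.card + (T.card - 16) := by
  set R : Finset V := (T \ A) \ F.biUnion id with hR
  have h1 : R.card + (F.biUnion id).card = (T \ A).card := card_sdiff_add_card_eq_card h.union_sub
  have h2 : (T \ A).card + A.card = T.card := card_sdiff_add_card_eq_card h.sub
  rw [h.card_sum] at h1
  have h3 := h.sum_parity
  have hRodd : Odd R.card := by
    rw [Nat.odd_iff]
    omega
  have hRne : R.Nonempty := by
    rw [← card_pos]
    obtain ⟨k, hk⟩ := hRodd
    omega
  have hdis : ∀ O ∈ F, Disjoint R O := by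
    intro O hO
    rw [disjoint_left]
    intro x hx hxO
    exact (mem_sdiff.1 hx).2 (mem_biUnion.2 ⟨O, hO, hxO⟩)
  have hnot : R ∉ F := by
    intro hRF
    obtain ⟨x, hx⟩ := hRne
    exact disjoint_left.1 (hdis R hRF) hx hx
  refine ⟨insert R F, ⟨h.sub, ?_, ?_, ?_, ?_⟩, ?_⟩
  · intro O hO
    rcases mem_insert.1 hO with rfl | hO
    · exact hRodd
    · exact h.odd O hO
  · intro O hO O' hO' hne
    rcases mem_insert.1 hO with h4 | h4 <;> rcases mem_insert.1 hO' with h5 | h5
    · exact absurd (h4.trans h5.symm) hne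
    · rw [h4]; exact hdis O' h5
    · rw [h5]; exact (hdis O h4).symm
    · exact h.disj O h4 O' h5 hne
  · intro O hO
    rcases mem_insert.1 hO with rfl | hO
    · exact sdiff_subset
    · exact h.subT O hO
  · intro O hO x hx y hy hxy
    rcases mem_insert.1 hO with rfl | hO
    · by_cases hyA : y ∈ A
      · exact Or.inr hyA
      left
      rw [hR, mem_sdiff, mem_sdiff]
      refine ⟨⟨hy, hyA⟩, fun hc => ?_⟩
      obtain ⟨O', hO', hy'⟩ := mem_biUnion.1 hc
      rw [hR, mem_sdiff, mem_sdiff] at hx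
      rcases h.cl O' hO' y hy' x hx.1.1 hxy.symm with h4 | h4
      · exact hx.2 (mem_biUnion.2 ⟨O', hO', h4⟩)
      · exact hx.1.2 h4
    · exact h.cl O hO x hx y hy hxy
  · rw [card_insert_of_notMem hnot, hc]
    omega

/-- all vertices have odd degree -/
def Full (H : SimpleGraph V) (T O : Finset V) : Prop := ∀ x ∈ O, Odd (nb H T x).card

theorem nb_split (x : V) {O : Finset V} (hO : O ⊆ T) :
    (nb H T x).card = (nb H O x).card + (nb H (T \ O) x).card := by
  classical
  rw [← card_union_of_disjoint]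
  · congr 1
    ext y
    rw [mem_union, mem_nb, mem_nb, mem_nb, mem_sdiff]
    constructor
    · rintro ⟨h1, h2⟩
      by_cases h3 : y ∈ O
      · exact Or.inl ⟨h3, h2⟩
      · exact Or.inr ⟨⟨h1, h3⟩, h2⟩
    · rintro (⟨h1, h2⟩ | ⟨⟨h1, _⟩, h2⟩)
      · exact ⟨hO h1, h2⟩
      · exact ⟨h1, h2⟩
  · rw [disjoint_left]
    intro y h1 h2
    exact (mem_sdiff.1 (mem_nb.1 h2).1).2 (mem_nb.1 h1).1

/-- full odd sets have at least three leaving edges -/
theorem cut3 (hG : Gd H T) {O : Finset V} (hO : O ⊆ T) (hodd : Odd O.card) (hf : Full H T O) :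
    3 ≤ cutn H T O := by
  have h1 : ∑ x ∈ O, (nb H T x).card = ∑ x ∈ O, (nb H O x).card + cutn H T O := by
    unfold cutn
    rw [← sum_add_distrib]
    exact sum_congr rfl fun x _ => nb_split x hO
  have h2 := handshake H O
  have h3 : (∑ x ∈ O, (nb H T x).card) % 2 = 1 := by
    rw [sum_nat_mod, sum_congr rfl (fun x hx => Nat.odd_iff.1 (hf x hx)), sum_const, smul_eq_mul,
      mul_one]
    exact Nat.odd_iff.1 hodd
  have h4 := hG.cut O hO
  rw [Nat.even_iff] at h2
  omega

/-- a vertex of odd degree has degree at least three -/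
theorem deg3 (hG : Gd H T) {x : V} (hx : x ∈ T) (ho : Odd (nb H T x).card) :
    3 ≤ (nb H T x).card := by
  have h1 := cut3 hG (O := {x}) (singleton_subset_iff.2 hx) (by rw [card_singleton]; decide)
    (fun y hy => by rw [mem_singleton.1 hy]; exact ho)
  unfold cutn at h1
  rw [sum_singleton] at h1
  exact h1.trans (card_le_card fun y hy => mem_nb.2 ⟨(mem_sdiff.1 (mem_nb.1 hy).1).1,
    (mem_nb.1 hy).2⟩)

open Classical in
/-- the vertices of odd degree outside of `A` all of whose neighbours are in `A` -/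
noncomputable def sing (H : SimpleGraph V) (T A : Finset V) : Finset V :=
  (T \ A).filter (fun x => Odd (nb H T x).card ∧ nb H T x ⊆ A)

theorem mem_sing {x : V} : x ∈ sing H T A ↔ x ∈ T \ A ∧ Odd (nb H T x).card ∧ nb H T x ⊆ A := by
  classical
  unfold sing
  rw [mem_filter]

theorem sing_card (hG : Gd H T) : 6 * (sing H T A).card ≤ A.card * (A.card - 1) := by
  have h1 : ((sing H T A).biUnion (fun x => (nb H T x).powersetCard 2)).card =
      ∑ x ∈ sing H T A, ((nb H T x).powersetCard 2).card := by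
    apply card_biUnion
    intro x hx x' hx' hne
    change Disjoint ((nb H T x).powersetCard 2) ((nb H T x').powersetCard 2)
    rw [disjoint_left]
    intro P hP hP'
    rw [mem_powersetCard] at hP hP'
    obtain ⟨p, q, hpq, rfl⟩ := card_eq_two.1 hP.2
    have a1 := (mem_nb.1 (hP.1 (by simp : p ∈ ({p, q} : Finset V)))).2
    have a2 := (mem_nb.1 (hP.1 (by simp : q ∈ ({p, q} : Finset V)))).2
    have a3 := (mem_nb.1 (hP'.1 (by simp : p ∈ ({p, q} : Finset V)))).2
    have a4 := (mem_nb.1 (hP'.1 (by simp : q ∈ ({p, q} : Finset V)))).2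
    exact hG.g5.quad x p x' q hne hpq a1 a3.symm a4 a2.symm
  have h2 : (sing H T A).biUnion (fun x => (nb H T x).powersetCard 2) ⊆ A.powersetCard 2 := by
    intro P hP
    obtain ⟨x, hx, hP⟩ := mem_biUnion.1 hP
    rw [mem_powersetCard] at hP ⊢
    exact ⟨hP.1.trans (mem_sing.1 hx).2.2, hP.2⟩
  have h3 := card_le_card h2
  rw [h1, card_powersetCard] at h3
  have h4 : ∑ x ∈ sing H T A, 3 ≤ ∑ x ∈ sing H T A, ((nb H T x).powersetCard 2).card := by
    refine sum_le_sum fun x hx => ?_
    rw [card_powersetCard]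
    have h5 := deg3 hG (mem_sdiff.1 (mem_sing.1 hx).1).1 (mem_sing.1 hx).2.1
    calc 3 = Nat.choose 3 2 := by decide
      _ ≤ _ := Nat.choose_le_choose 2 h5
  rw [sum_const, smul_eq_mul] at h4
  have h6 : A.card.choose 2 * 2 = A.card * (A.card - 1) := by
    rw [Nat.choose_two_right]
    exact Nat.div_mul_cancel (Nat.even_mul_pred_self _).two_dvd
  omega

/-- the edges which leave a set of the family end in `A` -/
theorem Fam.nb_sub (h : Fam H T A F) {O : Finset V} (hO : O ∈ F) {x : V} (hx : x ∈ O) :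
    nb H T x ⊆ nb H A x ∪ nb H O x := by
  intro w hw
  obtain ⟨h1, h2⟩ := mem_nb.1 hw
  rcases h.cl O hO x hx w h1 h2 with h3 | h3
  · exact mem_union_right _ (mem_nb.2 ⟨h3, h2⟩)
  · exact mem_union_left _ (mem_nb.2 ⟨h3, h2⟩)

/-- full sets with three vertices need five vertices in `A` -/
theorem three (hG : Gd H T) (h : Fam H T A F) (O : Finset V) (hO : O ∈ F) (hf : Full H T O)
    (hs : ∀ x ∈ O, x ∉ sing H T A) (h3 : O.card = 3) : 5 ≤ A.card := by
  classical
  obtain ⟨x, y, z, hxy, hxz, hyz, rfl⟩ := card_eq_three.1 h3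
  set O : Finset V := {x, y, z} with hOdef
  have hOT : ∀ v ∈ O, v ∈ T := fun v hv => (mem_sdiff.1 (h.subT O hO hv)).1
  have hOA : ∀ v ∈ O, v ∉ A := fun v hv => (mem_sdiff.1 (h.subT O hO hv)).2
  have hx : x ∈ O := by simp [hOdef]
  have hy : y ∈ O := by simp [hOdef]
  have hz : z ∈ O := by simp [hOdef]
  -- every vertex has a neighbour in the set
  have hin : ∀ v ∈ O, ∃ w ∈ O, H.Adj v w := by
    intro v hv
    by_contra hcon
    push Not at hcon
    apply hs v hv
    refine mem_sing.2 ⟨h.subT O hO hv, hf v hv, fun w hw => ?_⟩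
    obtain ⟨hw1, hw2⟩ := mem_nb.1 hw
    rcases h.cl O hO v hv w hw1 hw2 with h4 | h4
    · exact absurd hw2 (hcon w h4)
    · exact h4
  have hnall : ¬ (H.Adj x y ∧ H.Adj y z ∧ H.Adj z x) :=
    fun hc => hG.g5.tri x y z hc.1 hc.2.1 hc.2.2
  have hdeg : ∀ v ∈ O, 3 ≤ (nb H A v).card + (nb H O v).card := by
    intro v hv
    have h4 := deg3 hG (hOT v hv) (hf v hv)
    exact h4.trans ((card_le_card (h.nb_sub hO hv)).trans (card_union_le _ _))
  have hsumO : (nb H O x).card + (nb H O y).card + (nb H O z).card ≤ 4 := by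
    have c1 : (nb H O x).card = (if H.Adj x y then 1 else 0) + (if H.Adj x z then 1 else 0) := by
      unfold nb
      rw [hOdef, card_filter, sum_insert (by simp [hxy, hxz]), sum_insert (by simp [hyz]),
        sum_singleton, if_neg (H.irrefl), zero_add]
    have c2 : (nb H O y).card = (if H.Adj x y then 1 else 0) + (if H.Adj y z then 1 else 0) := by
      unfold nb
      rw [hOdef, card_filter, sum_insert (by simp [hxy, hxz]), sum_insert (by simp [hyz]),
        sum_singleton, if_neg (H.irrefl (v := y)), zero_add]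
      congr 1
      simp only [H.adj_comm y x]
    have c3 : (nb H O z).card = (if H.Adj x z then 1 else 0) + (if H.Adj y z then 1 else 0) := by
      unfold nb
      rw [hOdef, card_filter, sum_insert (by simp [hxy, hxz]), sum_insert (by simp [hyz]),
        sum_singleton, if_neg (H.irrefl (v := z)), add_zero]
      congr 1
      · simp only [H.adj_comm z x]
      · simp only [H.adj_comm z y]
    rw [c1, c2, c3]
    by_cases k1 : H.Adj x y <;> by_cases k2 : H.Adj y z <;> by_cases k3 : H.Adj x z <;>
      simp [k1, k2, k3]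
    exact hnall ⟨k1, k2, k3.symm⟩
  have hdisj : ∀ p ∈ O, ∀ q ∈ O, p ≠ q → Disjoint (nb H A p) (nb H A q) := by
    intro p hp q hq hpq
    rw [disjoint_left]
    intro u hu hu'
    have a1 := (mem_nb.1 hu).2
    have a2 := (mem_nb.1 hu').2
    have huA := (mem_nb.1 hu).1
    by_cases hadj : H.Adj p q
    · exact hG.g5.tri p q u hadj a2 a1.symm
    · -- a common neighbour inside
      obtain ⟨p', hp', hpp'⟩ := hin p hp
      obtain ⟨q', hq', hqq'⟩ := hin q hq
      have e1 : p' ≠ p := fun hc => H.irrefl (hc ▸ hpp')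
      have e2 : q' ≠ q := fun hc => H.irrefl (hc ▸ hqq')
      have e3 : p' ≠ q := fun hc => hadj (hc ▸ hpp')
      have e4 : q' ≠ p := fun hc => hadj (hc ▸ hqq').symm
      have e5 : p' = q' := by
        have hcard : O.card = 3 := h3
        by_contra hne
        have hsub : ({p, q, p', q'} : Finset V) ⊆ O := by
          intro w hw
          simp only [mem_insert, mem_singleton] at hw
          rcases hw with rfl | rfl | rfl | rfl <;> assumption
        have h4 := card_le_card hsub
        rw [card_insert_of_notMem (by simp [hpq, e1.symm, e4.symm]),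
          card_insert_of_notMem (by simp [e3.symm, e2.symm]),
          card_insert_of_notMem (by simp [hne]), card_singleton] at h4
        omega
      rw [← e5] at hqq'
      have hup : u ≠ p' := fun hc => hOA p' hp' (hc ▸ huA)
      exact hG.g5.quad p p' q u hpq hup.symm hpp' hqq'.symm a2 a1.symm
  have hu : (nb H A x ∪ nb H A y ∪ nb H A z).card = (nb H A x).card +
      (nb H A y).card + (nb H A z).card := by
    rw [card_union_of_disjoint, card_union_of_disjoint (hdisj x hx y hy hxy)]
    rw [disjoint_union_left]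
    exact ⟨hdisj x hx z hz hxz, hdisj y hy z hz hyz⟩
  have hle : (nb H A x ∪ nb H A y ∪ nb H A z).card ≤ A.card := by
    apply card_le_card
    intro w hw
    simp only [mem_union, mem_nb] at hw
    tauto
  have d1 := hdeg x hx
  have d2 := hdeg y hy
  have d3 := hdeg z hz
  omega

/-- if `A` is one vertex then all full sets have at least nine vertices -/
theorem nine (hG : Gd H T) (h : Fam H T A F) (hA : A.card = 1) (O : Finset V) (hO : O ∈ F)
    (hf : Full H T O) : 9 ≤ O.card := by
  classical
  obtain ⟨u, rfl⟩ := card_eq_one.1 hA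
  have hOT : O ⊆ T := (h.subT O hO).trans sdiff_subset
  have huO : u ∉ O := fun hc => (mem_sdiff.1 (h.subT O hO hc)).2 (mem_singleton_self u)
  have h1 := cut3 hG hOT (h.odd O hO) hf
  set X := O.filter (fun x => H.Adj x u) with hX
  have h3 : 3 ≤ X.card := by
    refine h1.trans ?_
    unfold cutn
    rw [hX, card_filter]
    refine sum_le_sum fun x hx => ?_
    have h2 : nb H (T \ O) x ⊆ if H.Adj x u then {u} else ∅ := by
      intro w hw
      obtain ⟨hw1, hw2⟩ := mem_nb.1 hw
      obtain ⟨hwT, hwO⟩ := mem_sdiff.1 hw1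
      rcases h.cl O hO x hx w hwT hw2 with h4 | h4
      · exact absurd h4 hwO
      · have h5 := mem_singleton.1 h4
        rw [h5] at hw2 ⊢
        rw [if_pos hw2]
        exact mem_singleton_self u
    refine (card_le_card h2).trans ?_
    split_ifs <;> simp
  have hdeg : ∀ x ∈ X, 2 ≤ (nb H O x).card := by
    intro x hx
    obtain ⟨hxO, hxu⟩ := mem_filter.1 hx
    have h4 := deg3 hG (hOT hxO) (hf x hxO)
    have h5 : nb H T x ⊆ insert u (nb H O x) := by
      intro w hw
      obtain ⟨hw1, hw2⟩ := mem_nb.1 hw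
      rcases h.cl O hO x hxO w hw1 hw2 with h6 | h6
      · exact mem_insert_of_mem (mem_nb.2 ⟨h6, hw2⟩)
      · rw [mem_singleton.1 h6]; exact mem_insert_self _ _
    have h6 := (card_le_card h5).trans (card_insert_le _ _)
    omega
  have hdis : ∀ x ∈ X, ∀ x' ∈ X, x ≠ x' → Disjoint (nb H O x) (nb H O x') := by
    intro x hx x' hx' hne'
    rw [disjoint_left]
    intro w hw hw'
    have hwO := (mem_nb.1 hw).1
    exact hG.g5.quad x w x' u hne' (fun hc => huO (hc ▸ hwO)) (mem_nb.1 hw).2
      (mem_nb.1 hw').2.symm (mem_filter.1 hx').2 (mem_filter.1 hx).2.symm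
  have hcard : (X.biUnion (fun x => nb H O x)).card = ∑ x ∈ X, (nb H O x).card :=
    card_biUnion hdis
  have hXd : Disjoint X (X.biUnion (fun x => nb H O x)) := by
    rw [disjoint_left]
    intro w hw hw'
    obtain ⟨x, hx, hw2⟩ := mem_biUnion.1 hw'
    exact hG.g5.tri x w u (mem_nb.1 hw2).2 (mem_filter.1 hw).2 (mem_filter.1 hx).2.symm
  have hsub : X ∪ X.biUnion (fun x => nb H O x) ⊆ O := by
    intro w hw
    rcases mem_union.1 hw with h4 | h4
    · exact (mem_filter.1 h4).1
    · obtain ⟨x, _, h5⟩ := mem_biUnion.1 h4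
      exact (mem_nb.1 h5).1
  have h4 := card_le_card hsub
  rw [card_union_of_disjoint hXd, hcard] at h4
  have h5 : ∑ x ∈ X, 2 ≤ ∑ x ∈ X, (nb H O x).card := sum_le_sum hdeg
  rw [sum_const, smul_eq_mul] at h5
  omega

/-- the sum over the full sets -/
theorem count_full (hG : Gd H T) (h : Fam H T A F) (hf : ∀ O ∈ F, Full H T O)
    (hc : A.card + 2 ≤ F.card) (hsum : ∑ O ∈ F, O.card + 2 * A.card ≤ 16 + F.card) : False := by
  classical
  set F1 := F.filter (fun O => ∃ x ∈ O, x ∈ sing H T A) with hF1
  set F2 := F.filter (fun O => ¬ ∃ x ∈ O, x ∈ sing H T A) with hF2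
  have hFF : F1.card + F2.card = F.card := card_filter_add_card_filter_not _
  have hpos : ∀ O ∈ F, 1 ≤ O.card := by
    intro O hO
    obtain ⟨k, hk⟩ := h.odd O hO
    omega
  -- the number of sets with a single vertex
  have ha : F1.card ≤ (sing H T A).card := by
    have h3 : (F1.biUnion (fun O => O ∩ sing H T A)).card =
        ∑ O ∈ F1, (O ∩ sing H T A).card := by
      apply card_biUnion
      intro O hO O' hO' hne
      exact disjoint_of_subset_left inter_subset_left (disjoint_of_subset_right inter_subset_left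
        (h.disj O (mem_filter.1 hO).1 O' (mem_filter.1 hO').1 hne))
    have h4 : F1.biUnion (fun O => O ∩ sing H T A) ⊆ sing H T A := by
      intro x hx
      obtain ⟨O, _, hx⟩ := mem_biUnion.1 hx
      exact (mem_inter.1 hx).2
    have h5 : ∑ O ∈ F1, 1 ≤ ∑ O ∈ F1, (O ∩ sing H T A).card := by
      refine sum_le_sum fun O hO => ?_
      obtain ⟨x, hx1, hx2⟩ := (mem_filter.1 hO).2
      exact card_pos.2 ⟨x, mem_inter.2 ⟨hx1, hx2⟩⟩
    have h6 := card_le_card h4
    rw [h3] at h6
    rw [sum_const, smul_eq_mul, mul_one] at h5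
    exact h5.trans h6
  have hs6 := sing_card (A := A) hG
  -- sets without a single vertex have at least three vertices
  have h3 : ∀ O ∈ F2, 3 ≤ O.card := by
    intro O hO
    obtain ⟨hOF, hno⟩ := mem_filter.1 hO
    obtain ⟨k, hk⟩ := h.odd O hOF
    by_contra hlt
    have h1 : O.card = 1 := by omega
    obtain ⟨x, rfl⟩ := card_eq_one.1 h1
    apply hno
    refine ⟨x, mem_singleton_self x, mem_sing.2 ⟨h.subT _ hOF (mem_singleton_self x),
      hf _ hOF x (mem_singleton_self x), ?_⟩⟩
    intro w hw
    obtain ⟨hw1, hw2⟩ := mem_nb.1 hw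
    rcases h.cl _ hOF x (mem_singleton_self x) w hw1 hw2 with h4 | h4
    · rw [mem_singleton.1 h4] at hw2
      exact absurd hw2 (H.irrefl)
    · exact h4
  have h5 : A.card ≤ 4 → ∀ O ∈ F2, 5 ≤ O.card := by
    intro hA4 O hO
    obtain ⟨hOF, hno⟩ := mem_filter.1 hO
    obtain ⟨k, hk⟩ := h.odd O hOF
    have h4 := h3 O hO
    by_contra hlt
    have h1 : O.card = 3 := by omega
    have := three hG h O hOF (hf O hOF) (fun x hx hx' => hno ⟨x, hx, hx'⟩) h1
    omega
  have hsplit : ∑ O ∈ F, O.card = ∑ O ∈ F1, O.card + ∑ O ∈ F2, O.card :=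
    (sum_filter_add_sum_filter_not F (fun O => ∃ x ∈ O, x ∈ sing H T A) _).symm
  have hs1 : F1.card ≤ ∑ O ∈ F1, O.card := by
    have : ∑ O ∈ F1, 1 ≤ ∑ O ∈ F1, O.card :=
      sum_le_sum fun O hO => hpos O (mem_filter.1 hO).1
    rwa [sum_const, smul_eq_mul, mul_one] at this
  have hs2 : ∀ L, (∀ O ∈ F2, L ≤ O.card) → F2.card * L ≤ ∑ O ∈ F2, O.card := by
    intro L hL
    have : ∑ O ∈ F2, L ≤ ∑ O ∈ F2, O.card := sum_le_sum hL
    rwa [sum_const, smul_eq_mul] at this
  rcases Nat.lt_or_ge 8 A.card with h9 | h8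
  · have := hs2 3 h3
    omega
  · obtain ⟨s, hs⟩ : ∃ s, A.card = s := ⟨_, rfl⟩
    rw [hs] at h8 h5 hs6 hsum hc
    have hsg : ∀ k, 6 * (sing H T A).card ≤ s * (s - 1) → s = k →
        6 * (sing H T A).card ≤ k * (k - 1) := by
      rintro k h rfl; exact h
    have h53 := hs2 3 h3
    by_cases hs4 : s ≤ 4
    · have h54 := hs2 5 (h5 hs4)
      by_cases hs0 : s = 0
      · -- no vertex in `A`: the cut condition
        subst hs0
        obtain ⟨O, hO⟩ : F.Nonempty := card_pos.1 (by omega)
        have hA0 : A = ∅ := card_eq_zero.1 hs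
        have hOT : O ⊆ T := (h.subT O hO).trans sdiff_subset
        have hcut := cut3 hG hOT (h.odd O hO) (hf O hO)
        have h0 : cutn H T O = 0 := by
          unfold cutn
          apply sum_eq_zero
          intro x hx
          rw [card_eq_zero, eq_empty_iff_forall_notMem]
          intro w hw
          obtain ⟨hw1, hw2⟩ := mem_nb.1 hw
          obtain ⟨hwT, hwO⟩ := mem_sdiff.1 hw1
          rcases h.cl O hO x hx w hwT hw2 with h7 | h7
          · exact hwO h7
          · rw [hA0] at h7; exact absurd h7 (notMem_empty _)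
        omega
      · by_cases hs1' : s = 1
        · have h9 := hs2 9 (fun O hO => nine hG h (hs.trans hs1') O (mem_filter.1 hO).1
            (hf O (mem_filter.1 hO).1))
          have h10 := hsg 1 hs6 hs1'
          omega
        · have h10 : s = 2 ∨ s = 3 ∨ s = 4 := by omega
          rcases h10 with h10 | h10 | h10
          · have := hsg 2 hs6 h10
            omega
          · have := hsg 3 hs6 h10
            omega
          · have := hsg 4 hs6 h10
            omega
    · have h10 : s = 5 ∨ s = 6 ∨ s = 7 ∨ s = 8 := by omega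
      rcases h10 with h10 | h10 | h10 | h10
      · have := hsg 5 hs6 h10
        omega
      · have := hsg 6 hs6 h10
        omega
      · have := hsg 7 hs6 h10
        omega
      · have := hsg 8 hs6 h10
        omega

/-- **The counting lemma.** -/
theorem count_aux (hG : Gd H T) (h : Fam H T A F) (hn : 16 ≤ T.card)
    (hc : F.card = A.card + (T.card - 16)) (ho : 18 ≤ (oddV H T).card) : False := by
  classical
  set F1 := F.filter (fun O => Full H T O) with hF1
  set F2 := F.filter (fun O => ¬ Full H T O) with hF2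
  have hFF : F1.card + F2.card = F.card := card_filter_add_card_filter_not _
  have hpos : ∀ O ∈ F, 1 ≤ O.card := by
    intro O hO
    obtain ⟨k, hk⟩ := h.odd O hO
    omega
  have hsum := card_le_card h.union_sub
  have h2 : (T \ A).card + A.card = T.card := card_sdiff_add_card_eq_card h.sub
  rw [h.card_sum] at hsum
  have hsplit : ∑ O ∈ F, O.card = ∑ O ∈ F1, O.card + ∑ O ∈ F2, O.card :=
    (sum_filter_add_sum_filter_not F (fun O => Full H T O) _).symm
  have hs2 : F2.card ≤ ∑ O ∈ F2, O.card := by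
    have : ∑ O ∈ F2, 1 ≤ ∑ O ∈ F2, O.card :=
      sum_le_sum fun O hO => hpos O (mem_filter.1 hO).1
    rwa [sum_const, smul_eq_mul, mul_one] at this
  -- one vertex of even degree in every set which is not full
  have hE : F2.card + (oddV H T).card ≤ T.card := by
    have h3 : ∀ O ∈ F2, ∃ x ∈ O, x ∉ oddV H T := by
      intro O hO
      obtain ⟨hOF, hnf⟩ := mem_filter.1 hO
      unfold Full at hnf
      push Not at hnf
      obtain ⟨x, hx, hx'⟩ := hnf
      exact ⟨x, hx, fun hc => hx' (mem_oddV.1 hc).2⟩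
    haveI : Nonempty V := by
      obtain ⟨v, _⟩ := card_pos.1 (show 0 < T.card by omega)
      exact ⟨v⟩
    choose! g hg1 hg2 using h3
    have hinj : Set.InjOn g (F2 : Set (Finset V)) := by
      intro O hO O' hO' heq
      by_contra hne
      have h4 := h.disj O (mem_filter.1 hO).1 O' (mem_filter.1 hO').1 hne
      exact disjoint_left.1 h4 (hg1 O hO) (heq ▸ hg1 O' hO')
    have hd : Disjoint (F2.image g) (oddV H T) := by
      rw [disjoint_left]
      intro x hx hx'
      obtain ⟨O, hO, rfl⟩ := mem_image.1 hx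
      exact hg2 O hO hx'
    rw [← card_image_of_injOn hinj, ← card_union_of_disjoint hd]
    apply card_le_card
    intro x hx
    rcases mem_union.1 hx with h4 | h4
    · obtain ⟨O, hO, rfl⟩ := mem_image.1 h4
      exact (mem_sdiff.1 (h.subT O (mem_filter.1 hO).1 (hg1 O hO))).1
    · exact (mem_oddV.1 h4).1
  have k1 : A.card + 2 ≤ F1.card := by omega
  have k2 : ∑ O ∈ F1, O.card + 2 * A.card ≤ 16 + F1.card := by omega
  exact count_full hG (h.mono (filter_subset _ _)) (fun O hO => (mem_filter.1 hO).2) k1 k2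

theorem count (hG : Gd H T) (h : Fam H T A F) (ho : 18 ≤ (oddV H T).card) :
    F.card ≤ A.card + (T.card - 18) := by
  classical
  have hn : 18 ≤ T.card := ho.trans (card_le_card fun v hv => (mem_oddV.1 hv).1)
  by_contra hcon
  push Not at hcon
  -- pass to a subfamily
  have sub : ∀ k ≤ F.card, ∃ F' : Finset (Finset V), Fam H T A F' ∧ F'.card = k := by
    intro k hk
    obtain ⟨F', hF', hk'⟩ := exists_subset_card_eq hk
    exact ⟨F', h.mono hF', hk'⟩
  obtain ⟨F', hF', hk'⟩ := sub (A.card + (T.card - 17)) (by omega)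
  obtain ⟨F'', h1, h2⟩ := hF'.extend hk' (by omega)
  exact count_aux hG h1 (by omega) h2 ho

end Q116.MM
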