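import Pool.Agent.Q116.FF.Cls
import Pool.Agent.Q116.MM.Cnt
import Pool.Agent.H168DD.TB

/-!
Graphs without a matching of nine edges: quotients without circuits of length at most four have at
most sixteen vertices of odd degree.
-/

set_option autoImplicit false

namespace Q116.MM

open Finset Q116.FF Pool.Agent.TH362.TF Pool.Agent.TH362.TF.Four

set_option linter.unusedSectionVars false

variable {V E : Type} [Fintype V] [DecidableEq V] [DecidableEq E]

/-- `M` is a matching: no loops, and the ends of different edges are different -/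
def IsMat {V E : Type} (s t : E → V) (M : Finset E) : Prop :=
  (∀ e ∈ M, s e ≠ t e) ∧ ∀ e ∈ M, ∀ f ∈ M, e ≠ f →
    s e ≠ s f ∧ s e ≠ t f ∧ t e ≠ s f ∧ t e ≠ t f

theorem cut_cardn {s t : E → V} {S : Finset E} (h : Sm s t S) {T : Finset V}
    (hT : ∀ e ∈ S, s e ∈ T ∧ t e ∈ T) (Y : Finset V) :
    (cut s t S (fun v => decide (v ∈ Y))).card = cutn (gr s t S) T Y := by
  classical
  unfold cutn
  rw [← card_sigma]
  have hm : ∀ e, e ∈ cut s t S (fun v => decide (v ∈ Y)) ↔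
      e ∈ S ∧ ((s e ∈ Y ∧ t e ∉ Y) ∨ (s e ∉ Y ∧ t e ∈ Y)) := by
    intro e
    unfold cut
    rw [mem_filter]
    by_cases h1 : s e ∈ Y <;> by_cases h2 : t e ∈ Y <;> simp [h1, h2]
  refine card_bij (fun e _ => if s e ∈ Y then (⟨s e, t e⟩ : (_ : V) × V) else ⟨t e, s e⟩) ?_ ?_ ?_
  · intro e he
    obtain ⟨h1, h2⟩ := (hm e).1 he
    rw [mem_sigma]
    rcases h2 with ⟨h2, h3⟩ | ⟨h2, h3⟩
    · rw [if_pos h2]
      have hne : s e ≠ t e := fun hc => h3 (hc ▸ h2)
      exact ⟨h2, mem_nb.2 ⟨mem_sdiff.2 ⟨(hT e h1).2, h3⟩, hne, e, h1, Or.inl ⟨rfl, rfl⟩⟩⟩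
    · rw [if_neg h2]
      have hne : t e ≠ s e := fun hc => h2 (hc ▸ h3)
      exact ⟨h3, mem_nb.2 ⟨mem_sdiff.2 ⟨(hT e h1).1, h2⟩, hne, e, h1, Or.inr ⟨rfl, rfl⟩⟩⟩
  · intro e he e' he' heq
    obtain ⟨h1, h2⟩ := (hm e).1 he
    obtain ⟨h1', h2'⟩ := (hm e').1 he'
    rcases h2 with ⟨h2, h3⟩ | ⟨h2, h3⟩ <;> rcases h2' with ⟨h2', h3'⟩ | ⟨h2', h3'⟩
    · rw [if_pos h2, if_pos h2', Sigma.mk.injEq] at heq
      exact h.par (s e) (t e) e e' (fun hc => h3 (hc ▸ h2)) h1 h1' (Or.inl ⟨rfl, rfl⟩)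
        (Or.inl ⟨heq.1.symm, (eq_of_heq heq.2).symm⟩)
    · rw [if_pos h2, if_neg h2', Sigma.mk.injEq] at heq
      exact h.par (s e) (t e) e e' (fun hc => h3 (hc ▸ h2)) h1 h1' (Or.inl ⟨rfl, rfl⟩)
        (Or.inr ⟨(eq_of_heq heq.2).symm, heq.1.symm⟩)
    · rw [if_neg h2, if_pos h2', Sigma.mk.injEq] at heq
      exact h.par (s e) (t e) e e' (fun hc => h2 (hc ▸ h3)) h1 h1' (Or.inl ⟨rfl, rfl⟩)
        (Or.inr ⟨heq.1.symm, (eq_of_heq heq.2).symm⟩)
    · rw [if_neg h2, if_neg h2', Sigma.mk.injEq] at heq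
      exact h.par (s e) (t e) e e' (fun hc => h2 (hc ▸ h3)) h1 h1' (Or.inl ⟨rfl, rfl⟩)
        (Or.inl ⟨(eq_of_heq heq.2).symm, heq.1.symm⟩)
  · rintro ⟨x, y⟩ hxy
    rw [mem_sigma] at hxy
    obtain ⟨hx, hy⟩ := hxy
    obtain ⟨hy1, _, e, he, k⟩ := mem_nb.1 hy
    have hyY := (mem_sdiff.1 hy1).2
    change x ∈ Y at hx
    change y ∉ Y at hyY
    rcases k with ⟨k1, k2⟩ | ⟨k1, k2⟩
    · refine ⟨e, (hm e).2 ⟨he, Or.inl ⟨by rw [k1]; exact hx, by rw [k2]; exact hyY⟩⟩, ?_⟩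
      rw [if_pos (show s e ∈ Y by rw [k1]; exact hx), k1, k2]
    · refine ⟨e, (hm e).2 ⟨he, Or.inr ⟨by rw [k1]; exact hyY, by rw [k2]; exact hx⟩⟩, ?_⟩
      rw [if_neg (show ¬ s e ∈ Y by rw [k1]; exact hyY), k1, k2]

theorem gd {s t : E → V} {S : Finset E} (h : Sm s t S) (h1 : N1 s t S) {T : Finset V}
    (hT : ∀ e ∈ S, s e ∈ T ∧ t e ∈ T) : Gd (gr s t S) T where
  mem v w hvw := by
    obtain ⟨_, e, he, k⟩ := hvw
    rcases k with ⟨_, k2⟩ | ⟨k1, _⟩
    · exact k2 ▸ (hT e he).2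
    · exact k1 ▸ (hT e he).1
  g5 := h.girth
  cut Y _ := by
    rw [← cut_cardn h hT Y]
    exact h1 _

/-- many vertices of odd degree force a matching -/
theorem exists_mat {s t : E → V} {S : Finset E} (h1 : N1 s t S) (f : V → V)
    (hs : Sm (fun e => f (s e)) (fun e => f (t e)) S)
    (ho : 17 ≤ (odd (fun e => f (s e)) (fun e => f (t e)) S).card) :
    ∃ M ⊆ S, IsMat s t M ∧ 9 ≤ M.card := by
  classical
  set s' : E → V := fun e => f (s e) with hs'
  set t' : E → V := fun e => f (t e) with ht'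
  have h1' : N1 s' t' S := quot_n1 (Finset.Subset.refl S) (fun e h1 h2 => absurd h1 h2) h1
  set H := gr s' t' S with hH
  set T := univ.image f with hT
  have hTc : ∀ e ∈ S, s' e ∈ T ∧ t' e ∈ T := fun e _ =>
    ⟨mem_image_of_mem f (mem_univ _), mem_image_of_mem f (mem_univ _)⟩
  have ho' : 18 ≤ (oddV H T).card := by
    have h2 : 17 ≤ (oddV H T).card := ho.trans (card_le_card (odd_sub hs hTc))
    have h3 := even_odd H T
    rw [Nat.even_iff] at h3
    omega
  have hn : 18 ≤ T.card := ho'.trans (card_le_card fun v hv => (mem_oddV.1 hv).1)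
  obtain ⟨U, m, hU, hUc, hm⟩ := H168DD.tutte_berge H T (T.card - 18)
    (by rw [Nat.even_iff]; omega) (by
      intro A F h1 h2 h3 h4 h5
      exact count (gd hs h1' hTc) ⟨h1, h2, h3, h4, h5⟩ ho')
  have hcard : 18 ≤ (T \ U).card := by
    rw [card_sdiff_of_subset hU]
    omega
  have hex : ∀ x, x ∈ T \ U → ∃ e, e ∈ S ∧ Ends s' t' x (m x) e := fun x hx => (hm x hx).2.2.2
  haveI : Nonempty E := by
    obtain ⟨x, hx⟩ := card_pos.1 (by omega : 0 < (T \ U).card)
    exact ⟨(hex x hx).choose⟩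
  choose! ed hedS hed using hex
  refine ⟨(T \ U).image ed, ?_, ⟨?_, ?_⟩, ?_⟩
  · intro e he
    obtain ⟨x, hx, rfl⟩ := mem_image.1 he
    exact hedS x hx
  · intro e he
    obtain ⟨x, hx, rfl⟩ := mem_image.1 he
    have h2 := (hm x hx).2.2.1
    intro hc
    rcases hed x hx with ⟨h3, h4⟩ | ⟨h3, h4⟩
    · exact h2 (h3.symm.trans ((congrArg f hc).trans h4))
    · exact h2 (h4.symm.trans ((congrArg f hc).symm.trans h3))
  · intro e he g hg hef
    obtain ⟨x, hx, rfl⟩ := mem_image.1 he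
    obtain ⟨y, hy, rfl⟩ := mem_image.1 hg
    have hxm := hm x hx
    have hym := hm y hy
    have e1 : x ≠ y := fun hc => hef (by rw [hc])
    have e2 : m x ≠ m y := fun hc => e1 (by rw [← hxm.2.1, hc, hym.2.1])
    have e3 : m x ≠ y := by
      intro hc
      apply hef
      have h3 := hed y hy
      have h4 : m y = x := by rw [← hc]; exact hxm.2.1
      rw [h4] at h3
      have h3 : Ends s' t' (m x) x (ed y) := by rw [hc]; exact h3
      exact hs.par x (m x) _ _ hxm.2.2.1 (hedS x hx) (hedS y hy) (hed x hx) (Or.symm h3)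
    have e4 : x ≠ m y := by
      intro hc
      apply e3
      rw [hc]; exact hym.2.1
    have key : ∀ a b : V, f a ≠ f b → a ≠ b := fun a b h hc => h (congrArg f hc)
    rcases hed x hx with ⟨h2, h3⟩ | ⟨h2, h3⟩ <;> rcases hed y hy with ⟨h4, h5⟩ | ⟨h4, h5⟩ <;>
      simp only [hs', ht'] at h2 h3 h4 h5
    · exact ⟨key _ _ (by rw [h2, h4]; exact e1), key _ _ (by rw [h2, h5]; exact e4),
        key _ _ (by rw [h3, h4]; exact e3), key _ _ (by rw [h3, h5]; exact e2)⟩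
    · exact ⟨key _ _ (by rw [h2, h4]; exact e4), key _ _ (by rw [h2, h5]; exact e1),
        key _ _ (by rw [h3, h4]; exact e2), key _ _ (by rw [h3, h5]; exact e3)⟩
    · exact ⟨key _ _ (by rw [h2, h4]; exact e3), key _ _ (by rw [h2, h5]; exact e2),
        key _ _ (by rw [h3, h4]; exact e1), key _ _ (by rw [h3, h5]; exact e4)⟩
    · exact ⟨key _ _ (by rw [h2, h4]; exact e2), key _ _ (by rw [h2, h5]; exact e3),
        key _ _ (by rw [h3, h4]; exact e4), key _ _ (by rw [h3, h5]; exact e1)⟩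
  · have h2 := card_le_mul_card_image (f := ed) (T \ U) 2 (by
      intro e _
      have : (T \ U).filter (fun x => ed x = e) ⊆ {s' e, t' e} := by
        intro x hx
        obtain ⟨hx1, rfl⟩ := mem_filter.1 hx
        rcases hed x hx1 with ⟨h2, _⟩ | ⟨_, h2⟩
        · exact mem_insert.2 (Or.inl h2.symm)
        · exact mem_insert.2 (Or.inr (mem_singleton.2 h2.symm))
      exact (card_le_card this).trans (card_le_two))
    omega

/-- **Matchings with at most eight edges.** -/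
theorem dd_of_matching {s t : E → V} {S : Finset E} (h1 : N1 s t S)
    (h : ∀ M ⊆ S, IsMat s t M → M.card ≤ 8) : DD s t S := by
  refine ⟨h1, fun f hs => ?_⟩
  by_contra hc
  push Not at hc
  obtain ⟨M, hM, h3, h4⟩ := exists_mat h1 f hs (by omega)
  have := h M hM h3
  omega

/-- matchings as functions -/
theorem small_of {s t : E → V} (h : ∀ e : Fin 9 → E, (∀ i, s (e i) ≠ t (e i)) →
    ∃ i j, i ≠ j ∧ (s (e i) = s (e j) ∨ s (e i) = t (e j) ∨ t (e i) = t (e j))) (M : Finset E)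
    (hM : IsMat s t M) : M.card ≤ 8 := by
  by_contra hc
  push Not at hc
  obtain ⟨M', hM', hcard⟩ := exists_subset_card_eq (show 9 ≤ M.card from hc)
  let g : Fin 9 ≃ M' := (Fintype.equivFinOfCardEq (by rw [Fintype.card_coe]; exact hcard)).symm
  obtain ⟨i, j, hij, h1⟩ := h (fun i => (g i).1) (fun i => hM.1 _ (hM' (g i).2))
  have h2 := hM.2 _ (hM' (g i).2) _ (hM' (g j).2)
    (fun hc => hij (g.injective (Subtype.ext hc)))
  rcases h1 with h1 | h1 | h1
  · exact h2.1 h1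
  · exact h2.2.1 h1
  · exact h2.2.2.2 h1

end Q116.MM
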